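import Mathlib

/-!
# Project FB: Fröberg's formula from the degree `∑ (d i - 1) - 1` on

Definitions and exact statements of the parts of the project FB of helper515 (MP_3395a4_ag,
Fröberg's conjecture). `m` base forms of degrees `e i` in `m + 1` variables cut out `N = ∏ e i`
points; the other forms are treated as functions on these points. Every proposition `S_X` below is
a part; complete proofs are in the doc comments.
-/

set_option autoImplicit false

namespace Pool.Agent.W515.FB

open Finset

/-! ### Numbers -/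

/-- the exponent vectors of the box -/
def box {m : ℕ} (e : Fin m → ℕ) : Finset (Fin m → ℕ) := Fintype.piFinset fun i => Finset.range (e i)

/-- the number of points of the box with coordinate sum at most `k` -/
def hh {m : ℕ} (e : Fin m → ℕ) (k : ℕ) : ℕ := ((box e).filter fun a => ∑ i, a i ≤ k).card

/-- the weight of a digit in the mixed radix expansion -/
def wt {m : ℕ} (e : Fin m → ℕ) (i : Fin m) : ℕ := ∏ j ∈ univ.filter (fun j => j < i), e j

/-- the number with the mixed radix digits `a` -/
def num {m : ℕ} (e : Fin m → ℕ) (a : Fin m → ℕ) : ℕ := ∑ i, a i * wt e i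

/-- MIX. The mixed radix expansion.

Proof. Induction on `m` with `Fin.snoc`/`Fin.init` (last digit most significant): `num e a =
num (e ∘ castSucc) (a ∘ castSucc) + a (last m) * ∏ i, e (castSucc i)`. Or use `finPiFinEquiv`
(`finPiFinEquiv_apply`), whose weights `∏ j : Fin i, n (Fin.castLE _ j)` are the `wt e i`. -/
def S_MIX : Prop :=
  ∀ (m : ℕ) (e : Fin m → ℕ), (∀ i, 1 ≤ e i) →
    (∀ a ∈ box e, num e a < ∏ i, e i) ∧ Set.InjOn (num e) (box e : Set (Fin m → ℕ))

/-- H. The numbers `hh e k`, with `σ = ∑ (e i - 1)`.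

Proof. Every `a` in the box has `∑ a i ≤ σ`, and the box has `∏ e i` points; (3) is clear. (4) The
reflection `a i ↦ e i - 1 - a i` is a bijection of the box which maps `∑ a i ≥ k + 1` to
`∑ a i ≤ σ - (k + 1) = l`. (5) there is a point of the box with `∑ a i = k + 1` (increase one
coordinate after the other: induction on `k`; if `∑ a i = k < σ` then some `a i < e i - 1`). -/
def S_H : Prop :=
  ∀ (m : ℕ) (e : Fin m → ℕ), (∀ i, 1 ≤ e i) →
    (∀ k, hh e k ≤ ∏ i, e i) ∧ (∀ k, ∑ i, (e i - 1) ≤ k → hh e k = ∏ i, e i) ∧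
    (∀ k l, k ≤ l → hh e k ≤ hh e l) ∧
    (∀ k l, k + l + 1 = ∑ i, (e i - 1) → hh e k + hh e l = ∏ i, e i) ∧
    (∀ k, k < ∑ i, (e i - 1) → hh e k < hh e (k + 1)) ∧ (∀ k, 1 ≤ hh e k)

/-- ASG. Choice of the sizes of the pieces.

Proof. Induction on `s`, or directly. If `∑ H ≤ T` take `a = H`: for `H i > 0`,
`∑_{j<i} H j + H i ≤ T < H i + A i`. Otherwise let `i` be the first index with
`T < ∑_{j ≤ i} H j`; take `a i = min (H i) T`, `a j = 0` for `j > i`, and for `j < i` any
`a j ≤ H j` with `∑_{j<i} a j = T - a i` (possible, as `∑_{j<i} H j ≤ T`, and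
`T - a i ≤ ∑_{j<i} H j`). Check: for `j < i` with `a j > 0`, `∑_{l<j} a l + H j ≤ ∑_{l ≤ j} H l ≤ T
< H j + A j`; for `i` itself: `∑_{j<i} a j = T - min (H i) T` is `0 < A i` or `T - H i < A i`. -/
def S_ASG : Prop :=
  ∀ (s : ℕ) (H A : Fin s → ℕ) (T : ℕ), (∀ i, 1 ≤ A i) → (∀ i, 0 < H i → T < H i + A i) →
    ∃ a : Fin s → ℕ, (∀ i, a i ≤ H i) ∧
      (∀ i, 0 < a i → ∑ j ∈ univ.filter (fun j => j < i), a j < A i) ∧
      ∑ i, a i = min T (∑ i, H i)

/-! ### Power series -/

/-- SER. `(1 - t)^(-(m+1)) ∏ (1 - t^(e i))` has the coefficients `hh e k`.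

Proof. Induction on `m` (for all `k`): for `m = 0` both sides are `1`. With `e' = e ∘ castSucc`,
`d = e (last m)`: `(mk 1)^(m+2) * ∏ = (mk 1)^(m+1) * ∏' * ((mk 1) * (1 - X^d))` and
`(mk 1) * (1 - X^d) = ∑ b ∈ range d, X^b`; the coefficient at `k` is
`∑ b ∈ range d, if b ≤ k then hh e' (k - b) else 0`, which is `hh e k` (last coordinate `b`). -/
def S_SER : Prop :=
  ∀ (m : ℕ) (e : Fin m → ℕ), (∀ i, 1 ≤ e i) → ∀ k : ℕ,
    PowerSeries.coeff k ((PowerSeries.mk fun _ => (1 : ℤ)) ^ (m + 1) *
      ∏ i : Fin m, (1 - PowerSeries.X ^ e i)) = (hh e k : ℤ)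

/-- SER2. Below the degrees of the pairs only the linear terms matter.

Proof. Induction on `s` (`Fin.prod_univ_castSucc`): `coeff k (G * P * (1 - X^d)) =
coeff k (G * P) - (if d ≤ k then coeff (k - d) (G * P))`, and `coeff (k - d) (G * P) =
coeff (k - d) G` as all other degrees `D i` satisfy `k - d < D i` (use the induction hypothesis at
`k - d`: all terms of the sum vanish and the pair condition holds). -/
def S_SER2 : Prop :=
  ∀ (G : PowerSeries ℤ) (s : ℕ) (D : Fin s → ℕ) (k : ℕ), (∀ i j, i ≠ j → k < D i + D j) →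
    PowerSeries.coeff k (G * ∏ i : Fin s, (1 - PowerSeries.X ^ D i)) =
      PowerSeries.coeff k G - ∑ i, if D i ≤ k then PowerSeries.coeff (k - D i) G else 0

/-! ### The points -/

/-- all minors of the matrix of the powers with exponents less than `N` are nonzero -/
def Good {L : Type} [Field L] {N : ℕ} (z : Fin N → L) : Prop :=
  ∀ (w : ℕ) (t u : Fin w → Fin N), Function.Injective t → Function.Injective u →
    (Matrix.of fun a b => z (t a) ^ (u b : ℕ)).det ≠ 0

/-- the coefficient of the relation `z ^ N = beta * z + 1` -/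
def beta (L : Type) [Field L] (N : ℕ) : L := if N = 1 then 0 else 1

open Polynomial in
/-- GAL. The Galois group of `X ^ n - X - 1` over the rationals is the full symmetric group.

Proof. `Pool.Agent.Helper259.Selmer` (file `Pool/Agent/Helper259/Selmer/Gal.lean`) proves this for
`n` prime (`bijective`), with all lemmas for general `n`: `splits_int`, `card_rootSet_int`,
`ncard_field` (at most one double root modulo a maximal ideal). For general `n` use
`Polynomial.Splits.surjective_toPermHom_of_iSup_inertia_eq_top` (Mathlib, file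
`RingTheory/Polynomial/Morse.lean`) with `S = 𝓞 L`, `G = Gal(L/ℚ)`, `L` the splitting field. Its
hypothesis `h` is shown inside the proof of `bijective` (`hcol`). Transitivity: irreducibility
(`X_pow_sub_X_sub_one_irreducible_rat`). Generation by the inertia groups: let `H` be the subgroup
generated by them and `K' = fixedField H`. If `K' ≠ ℚ`, then
`NumberField.exists_not_isUnramifiedAt_int` gives a maximal ideal `P'` of `𝓞 K'` ramified over `ℤ`;
take a maximal ideal `P` of `𝓞 L` above it. The ramification indices satisfy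
`e(P/p) = e(P'/p) e(P/P')`, they are the orders of the inertia groups of `P` in `Gal(L/ℚ)` and in
`H = Gal(L/K')`, and these groups are equal since the first is contained in `H`; so `e(P'/p) = 1`,
contradiction. -/
def S_GAL : Prop :=
  ∀ n : ℕ, 2 ≤ n →
    ∀ π : Equiv.Perm ((X ^ n - X - 1 : ℚ[X]).rootSet (X ^ n - X - 1 : ℚ[X]).SplittingField),
      ∃ τ : (X ^ n - X - 1 : ℚ[X]).SplittingField ≃ₐ[ℚ] (X ^ n - X - 1 : ℚ[X]).SplittingField,
        ∀ x : (X ^ n - X - 1 : ℚ[X]).rootSet (X ^ n - X - 1 : ℚ[X]).SplittingField,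
          τ x.1 = (π x).1

/-- ROWS. A matrix with independent columns has an invertible square submatrix of full width.

Proof. Induction on `w`, or: the rows `v j = (fun b => M j b)` span `Fin w → F` (rank), so some of
them form a basis. -/
def S_ROWS : Prop :=
  ∀ (F : Type) [Field F] (N w : ℕ) (M : Matrix (Fin N) (Fin w) F),
    (∀ c : Fin w → F, (∀ j, ∑ b, c b * M j b = 0) → c = 0) →
    ∃ t : Fin w → Fin N, Function.Injective t ∧ (M.submatrix t id).det ≠ 0

/-- VM. Points all of whose minors are nonzero.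

Proof. `N = 1`: `z = 1`, the minors have size `0` or `1` (entries `1 ^ 0`). `N ≥ 2`: let
`F` be the splitting field of `p = X^N - X - 1` over `ℚ`, enumerate its `N` distinct roots in `F`
(irreducible, so separable), `y : Fin N ≃ p.rootSet F`. Given `t, u` injective. The columns
`j ↦ y j ^ (u b)` are independent: a relation is a polynomial of degree `< N` with `N` roots. By
S_ROWS there is an injective `t₀` with nonzero minor. Let `π` be a permutation of `Fin N` with
`π ∘ t₀ = t` (extend the injections) and `τ` the Galois automorphism with `τ (y j) = y (π j)`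
(S_GAL): `τ` maps the minor of `t₀` to the minor of `t`, so this is not zero. Finally embed
`F` in `L` (`IsAlgClosed.lift`, `L` is an algebra over `ℚ`): `z j = ι (y j)`. -/
def S_VM : Prop :=
  S_GAL → S_ROWS → ∀ (L : Type) [Field L] [CharZero L] [IsAlgClosed L] (N : ℕ), 1 ≤ N →
    ∃ z : Fin N → L, Good z ∧ ∀ j, z j ^ N = beta L N * z j + 1

/-! ### Functions on the points -/

/-- the functions spanned by the powers with exponents in `T` -/
def pw {L : Type} [Field L] {N : ℕ} (z : Fin N → L) (T : Finset ℕ) : Submodule L (Fin N → L) :=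
  Submodule.span L ((fun k : ℕ => fun j => z j ^ k) '' (T : Set ℕ))

/-- INT. Interpolation: the functions in `pw z T` take arbitrary values on sets `P` of at most
`T.card` points, and if `T.card ≤ P.card` they are determined by the values on `P`.

Proof. Shrink `T` (`P`) to a subset of the size of the other set, enumerate both and use that the
minor is not zero (`Matrix.det`, `Matrix.mulVec` invertible). -/
def S_INT : Prop :=
  ∀ (L : Type) [Field L] (N : ℕ) (z : Fin N → L), Good z → ∀ (T : Finset ℕ), T ⊆ range N →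
    ∀ P : Finset (Fin N),
      (P.card ≤ T.card → ∀ φ : Fin N → L, ∃ v ∈ pw z T, ∀ j ∈ P, v j = φ j) ∧
      (T.card ≤ P.card → ∀ v ∈ pw z T, (∀ j ∈ P, v j = 0) → v = 0)

/-- AV. Functions with prescribed zeros and non-zeros.

Proof. `L` is infinite. For each `p ∈ S` there is `v ∈ pw z T` which is zero on `Z` and `1` at `p`
(S_INT with `Z ∪ {p}`). So in the space `U` of all `v ∈ pw z T` that vanish on `Z` the subspaces
`{v p = 0}`, `p ∈ S`, are proper, and finitely many proper subspaces do not cover `U`
(`Subspace.biUnion_ne_univ_of_top_notMem` or a similar lemma; or induction on `S`: `g + c v` with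
`c` avoiding finitely many values). -/
def S_AV : Prop :=
  S_INT → ∀ (L : Type) [Field L] [CharZero L] (N : ℕ) (z : Fin N → L), Good z →
    ∀ (T : Finset ℕ), T ⊆ range N → ∀ Z S : Finset (Fin N), Disjoint Z S → Z.card < T.card →
      ∃ g ∈ pw z T, (∀ j ∈ Z, g j = 0) ∧ ∀ j ∈ S, g j ≠ 0

/-- CORE. Products of functions on the points.

Proof. Choose disjoint sets `P i` of `a i` points and `C' i ⊆ C i` with `a i` elements; by S_AV
(if `a i > 0`; otherwise `g i = 0`) let `g i ∈ pw z (A i)` vanish on the `P j`, `j < i`, and at no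
point of `P i`. The linear map `(v i) ↦ ∑ g i * v i` from the product of the spaces
`pw z (C' i)` is injective: if `∑ g i * v i = 0`, then by strong induction on `i` all `v j = 0`,
`j < i`, and on `P i` also `g k = 0` for `k > i`, so `g i * v i = 0` on `P i`, `v i = 0` on `P i`
and `v i = 0` (S_INT). The dimension of `pw z (C' i)` is `a i` (S_INT: it has at least `a i`
elements of a basis, the evaluation on `P i` is onto). The image lies in the supremum. -/
def S_CORE : Prop :=
  S_INT → S_AV → ∀ (L : Type) [Field L] [CharZero L] (N s : ℕ) (z : Fin N → L), Good z →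
    ∀ (A C : Fin s → Finset ℕ) (a : Fin s → ℕ), (∀ i, A i ⊆ range N) → (∀ i, C i ⊆ range N) →
      (∀ i, a i ≤ (C i).card) →
      (∀ i, 0 < a i → ∑ j ∈ univ.filter (fun j => j < i), a j < (A i).card) → ∑ i, a i ≤ N →
      ∃ g : Fin s → Fin N → L, (∀ i, g i ∈ pw z (A i)) ∧
        ∑ i, a i ≤ Module.finrank L
          (⨆ i, (pw z (C i)).map (LinearMap.mulLeft L (g i)) : Submodule L (Fin N → L))

/-! ### The base forms -/

open MvPolynomial

/-- the base forms; the last variable is used for homogenisation -/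
noncomputable def base (L : Type) [Field L] {m : ℕ} (e : Fin m → ℕ) (k : Fin m) :
    MvPolynomial (Fin (m + 1)) L :=
  X k.castSucc ^ e k -
    (if h : (k : ℕ) + 1 < m then
      X (⟨(k : ℕ) + 1, by omega⟩ : Fin (m + 1)) * X (Fin.last m) ^ (e k - 1)
    else C (beta L (∏ i, e i)) * X 0 * X (Fin.last m) ^ (e k - 1) + X (Fin.last m) ^ e k)

/-- the standard monomials of degree `D` -/
noncomputable def mono (L : Type) [Field L] {m : ℕ} (D : ℕ) (a : Fin m → ℕ) :
    MvPolynomial (Fin (m + 1)) L :=
  (∏ i : Fin m, X i.castSucc ^ a i) * X (Fin.last m) ^ (D - ∑ i, a i)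

/-- the points -/
def pt {L : Type} [Field L] {m : ℕ} (e : Fin m → ℕ) (z : L) (i : Fin (m + 1)) : L :=
  if h : (i : ℕ) < m then z ^ wt e ⟨i, h⟩ else 1

/-- HOM. The base forms are forms.

Proof. `X k ^ e k` is homogeneous of degree `e k`, and so are the other terms
(`1 + (e k - 1) = e k`). -/
def S_HOM : Prop :=
  ∀ (L : Type) [Field L] (m : ℕ) (e : Fin m → ℕ), (∀ i, 1 ≤ e i) →
    (∀ k, (base L e k).IsHomogeneous (e k)) ∧
    ∀ (D : ℕ) (a : Fin m → ℕ), ∑ i, a i ≤ D → (mono L D a).IsHomogeneous D

/-- EV. Evaluation at the points.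

Proof. `wt e 0 = 1`, `wt e (k + 1) = wt e k * e k`, `wt e (m - 1) * e (m - 1) = ∏ e i`. -/
def S_EV : Prop :=
  ∀ (L : Type) [Field L] (m : ℕ) (e : Fin m → ℕ), (∀ i, 1 ≤ e i) → ∀ z : L,
    z ^ (∏ i, e i) = beta L (∏ i, e i) * z + 1 →
    (∀ k, eval (pt e z) (base L e k) = 0) ∧
    ∀ (D : ℕ) (a : Fin m → ℕ), eval (pt e z) (mono L D a) = z ^ num e a

/-- RED. Every form is congruent to a combination of standard monomials modulo the base forms.

Proof. It suffices to treat the monomials `x^b w^c` of degree `D` (`b : Fin m → ℕ`, `c` the exponent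
of the last variable). Strong induction on `μ(b) = ∑ k, b k * (wt e k * (2 * m - k))`. If
`b k < e k` for all `k` it is standard. Otherwise take `k` with `b k ≥ e k`; modulo `base L e k` the
monomial is congruent to `x^(b - e k at k, + 1 at k + 1) w^(c + e k - 1)` if `k + 1 < m`, and to
`β x^(b - e k at k, + 1 at 0) w^(c + e k - 1) + x^(b - e k at k) w^(c + e k)` if `k + 1 = m`. These
have smaller `μ`: `e k * wt e k * (2 m - k) = wt e (k+1) * (2 m - k) > wt e (k+1) * (2 m - k - 1)`;
for `k = m - 1`: `e k * wt e k * (2 m - k) = N (m + 1)` where `N = ∏ e i`; this is positive, and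
greater than `μ(unit vector at 0) = 2 m` if `N ≥ 2`; if `N = 1` then `β = 0`. -/
def S_RED : Prop :=
  ∀ (L : Type) [Field L] (m : ℕ) (e : Fin m → ℕ), (∀ i, 1 ≤ e i) →
    ∀ (D : ℕ) (G : MvPolynomial (Fin (m + 1)) L), G.IsHomogeneous D →
      ∃ S ∈ Submodule.span L ((mono L D) '' {a | a ∈ box e ∧ ∑ i, a i ≤ D}),
        G - S ∈ Ideal.span (Set.range (base L e))

end Pool.Agent.W515.FB
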